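import Pool.Agent.W242.PR.Cj

/-!
# Exponentials and one-dimensional periods
-/

set_option autoImplicit false

namespace Pool.Agent.Results.MP_2cf66e_nt.OneDimensionalPeriods

open Polynomial MeasureTheory Module
open scoped Pointwise

/-- A set of real numbers described by finitely many polynomial equalities and inequalities with
rational coefficients, combined in any way: whether `x` is in the set depends only on the signs
at `x` of finitely many polynomials with rational coefficients. -/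
def Described (S : Set ℝ) : Prop :=
  ∃ F : Finset ℚ[X], ∀ x y : ℝ,
    (∀ p ∈ F, SignType.sign (aeval x p) = SignType.sign (aeval y p)) → x ∈ S → y ∈ S

/-- A real one-dimensional period: an absolutely convergent integral of a rational function of one
variable, with rational coefficients, over such a set. -/
def RealPeriodOne (y : ℝ) : Prop :=
  ∃ (P Q : ℚ[X]) (S : Set ℝ), Q ≠ 0 ∧ Described S ∧
    IntegrableOn (fun x : ℝ => aeval x P / aeval x Q) S ∧
    (∫ x in S, aeval x P / aeval x Q) = y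

/-- a one-dimensional period: real and imaginary part are real one-dimensional periods -/
def PeriodOne (z : ℂ) : Prop := RealPeriodOne z.re ∧ RealPeriodOne z.im

/-- linear combinations, with algebraic coefficients, of `1` and of logarithms of algebraic
numbers -/
noncomputable def LogForms : Submodule (algebraicClosure ℚ ℂ) ℂ :=
  Submodule.span (algebraicClosure ℚ ℂ) ({1} ∪ {z : ℂ | IsAlgebraic ℚ (Complex.exp z)})

/-- the algebraic numbers `b` for which `e ^ b` is in `LogForms` -/
def Exponents : Set ℂ := {b : ℂ | IsAlgebraic ℚ b ∧ Complex.exp b ∈ LogForms}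

/-- the numbers `t` and `1 / (t - s)`, `s` algebraic -/
noncomputable def Family (t : ℂ) : Option (algebraicClosure ℚ ℂ) → ℂ
  | none => t
  | some s => 1 / (t - (s : ℂ))

/-- the space spanned by `c, c e, ..., c e ^ n` -/
noncomputable def Powers (c : ℂ) (n : ℕ) : Submodule (algebraicClosure ℚ ℂ) ℂ :=
  Submodule.span (algebraicClosure ℚ ℂ) {z : ℂ | ∃ j ≤ n, z = c * Complex.exp 1 ^ j}

open Classical in
theorem result :
    -- the integrals of the problem with `n = 1` are real one-dimensional periods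
    (∀ (P Q : MvPolynomial (Fin 1) ℚ) (k m : ℕ) (p : Fin k → Fin m → MvPolynomial (Fin 1) ℚ),
      IntegrableOn (fun x : Fin 1 → ℝ => MvPolynomial.aeval x P / MvPolynomial.aeval x Q)
        {x : Fin 1 → ℝ | ∃ j, ∀ i, 0 < MvPolynomial.aeval x (p j i)} volume →
      RealPeriodOne (∫ x in {x : Fin 1 → ℝ | ∃ j, ∀ i, 0 < MvPolynomial.aeval x (p j i)},
          MvPolynomial.aeval x P / MvPolynomial.aeval x Q)) ∧
    -- one-dimensional periods are in `LogForms`
    (∀ z : ℂ, PeriodOne z → z ∈ LogForms) ∧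
    -- every difference occurs at most twice in `Exponents`
    (∀ d : ℂ, IsAlgebraic ℚ d → d ≠ 0 → {b : ℂ | b ∈ Exponents ∧ b + d ∈ Exponents}.encard ≤ 2) ∧
    -- `e`, `e ^ 2`, `e ^ 3`
    ¬ (Complex.exp 1 ∈ LogForms ∧ Complex.exp 2 ∈ LogForms ∧ Complex.exp 3 ∈ LogForms) ∧
    -- counting in a finite set of algebraic numbers
    (∀ A : Finset ℂ, (∀ a ∈ A, IsAlgebraic ℚ a) →
      (A.filter (fun a => a ∈ Exponents)).card * ((A.filter (fun a => a ∈ Exponents)).card - 1) ≤
        2 * ((A - A).card - 1)) ∧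
    -- `d` real, `z` not real
    (∀ d z : ℂ, d ∈ Exponents → d ≠ 0 → d.im = 0 → z ∈ Exponents → z.im ≠ 0 →
      z + d ∉ Exponents) ∧
    -- imaginary exponents
    (∀ x y : ℝ, x ≠ 0 → y ≠ 0 → x + y ≠ 0 → x * Complex.I ∈ Exponents →
      y * Complex.I ∈ Exponents → (x + y : ℝ) * Complex.I ∉ Exponents) ∧
    -- the projective family of `e`
    {s : Option (algebraicClosure ℚ ℂ) | Family (Complex.exp 1) s ∈ LogForms}.encard ≤ 2 ∧
    (∀ s : ℂ, IsAlgebraic ℚ s → s.im ≠ 0 →
      ¬ (Complex.exp 1 ∈ LogForms ∧ 1 / (Complex.exp 1 - s) ∈ LogForms)) ∧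
    -- polynomials in `e`, up to a factor
    (∀ (n : ℕ) (c : ℂ), c ≠ 0 →
      finrank (algebraicClosure ℚ ℂ)
        (Powers c n ⊓ LogForms : Submodule (algebraicClosure ℚ ℂ) ℂ) ^ 2 ≤ 4 * n + 1) := by
  have he := Pool.Agent.W242.GG.exp_one_tr
  have hdiff : ∀ d : ℂ, IsAlgebraic ℚ d → d ≠ 0 →
      {b : ℂ | b ∈ Exponents ∧ b + d ∈ Exponents}.encard ≤ 2 :=
    fun d hd hd0 => Pool.Agent.W242.PR.exp_diff hd hd0
  refine ⟨fun P Q k m p h => Pool.Agent.W242.PR.open_mem P Q k m p h,
    fun z hz => Pool.Agent.W242.PR.period_Lt hz, hdiff, ?_, ?_, ?_, ?_, ?_, ?_, ?_⟩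
  · rintro ⟨h1, h2, h3⟩
    have n2 : IsAlgebraic ℚ (2 : ℂ) := isAlgebraic_nat 2
    have n3 : IsAlgebraic ℚ (3 : ℂ) := isAlgebraic_nat 3
    refine Pool.Agent.W242.PR.false_of_encard (hdiff 1 isAlgebraic_one one_ne_zero)
      (a := 0) (b := 1) (c := 2) (by norm_num) (by norm_num) (by norm_num) ?_ ?_ ?_
    · refine ⟨⟨isAlgebraic_zero, ?_⟩, ?_, ?_⟩
      · rw [Complex.exp_zero]; exact Pool.Agent.H301R2.SSE.Lt_one
      · rw [zero_add]; exact isAlgebraic_one
      · rw [zero_add]; exact h1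
    · refine ⟨⟨isAlgebraic_one, h1⟩, ?_, ?_⟩
      · exact isAlgebraic_one.add isAlgebraic_one
      · have e : (1 : ℂ) + 1 = 2 := by norm_num
        rw [e]; exact h2
    · refine ⟨⟨n2, h2⟩, ?_, ?_⟩
      · exact n2.add isAlgebraic_one
      · have e : (2 : ℂ) + 1 = 3 := by norm_num
        rw [e]; exact h3
  · intro A hA
    have := Pool.Agent.W242.PR.exp_count A hA (fun a => a ∈ Exponents) (fun z hz => hz.2)
    convert this
  · intro d z hd hd0 hdim hz him hzd
    exact Pool.Agent.W242.PR.exp_real hd.1 hd0 hdim hz.1 him hd.2 hz.2 hzd.2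
  · intro x y hx0 hy0 hxy hx hy hs
    have hI := Pool.Agent.H340R2.LW.isAlgebraic_I
    have key : ∀ x : ℝ, IsAlgebraic ℚ ((x : ℂ) * Complex.I) → IsAlgebraic ℚ (x : ℂ) := by
      intro x h
      have e : (x : ℂ) = -(x * Complex.I * Complex.I) := by
        rw [mul_assoc, Complex.I_mul_I]; ring
      rw [e]; exact (h.mul hI).neg
    exact Pool.Agent.W242.PR.exp_imag (key x hx.1) (key y hy.1) hx0 hy0 hxy hx.2 hy.2 hs.2
  · have h := Pool.Agent.W242.PR.mob_two he
    have e : {s : Option (algebraicClosure ℚ ℂ) | Family (Complex.exp 1) s ∈ LogForms} =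
        {o : Option Pool.Agent.H301R2.SSE.QB |
          Pool.Agent.W242.PR.mob (Complex.exp 1) o ∈ Pool.Agent.H301R2.SSE.Lt} := by
      ext o
      rcases o with _ | o <;> rfl
    rw [e]; exact h
  · rintro s hs him ⟨h1, h2⟩
    have e : Complex.exp 1 = ((Real.exp 1 : ℝ) : ℂ) := by push_cast; rfl
    rw [e] at h1 h2 he
    exact Pool.Agent.W242.PR.real_two he hs him h1 h2
  · intro n c hc
    rw [sq]
    exact Pool.Agent.W242.GG.powSp_sq he hc n _ inf_le_right inf_le_left

end Pool.Agent.Results.MP_2cf66e_nt.OneDimensionalPeriods
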